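import Mathlib
import Pool.Agent.H.MP_b9a4b9_al.E

set_option autoImplicit false

open Filter Topology
open scoped MatrixGroups LinearAlgebra.Projectivization

namespace Pool.Agent.Results.MP_b9a4b9_al.No

open Pool.Agent.H.MP_b9a4b9_al

/-- The preimage in `SL(2,ℝ)` of a subgroup of `PSL(2,ℝ)`. -/
def lift2 (Γ : Subgroup PSL(2, ℝ)) : Subgroup SL(2, ℝ) :=
  Γ.comap (QuotientGroup.mk' (Subgroup.center SL(2, ℝ)))

/-- An oriented Fuchsian group: a finitely generated discrete subgroup of `PSL(2,ℝ)` that is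
non-elementary (no finite orbit in the upper half plane or on its boundary `ℙ¹(ℝ)`). -/
def IsFuchsian (Γ : Subgroup PSL(2, ℝ)) : Prop :=
  Γ.FG ∧ DiscreteTopology (lift2 Γ) ∧
    (∀ z : UpperHalfPlane, ((fun g : SL(2, ℝ) => g • z) '' (lift2 Γ : Set SL(2, ℝ))).Infinite) ∧
    ∀ x : ℙ ℝ (Fin 2 → ℝ), (MulAction.orbit Γ x).Infinite

theorem result : ∃ Γ : Subgroup PSL(2, ℝ), IsFuchsian Γ ∧
    ∃ (G : ℕ → Type) (_ : ∀ n, Group (G n)) (_ : ∀ n, Finite (G n)),
      (∀ n, IsSimpleGroup (G n) ∧ ¬IsMulCommutative (G n)) ∧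
      Tendsto (fun n => Nat.card (G n)) atTop atTop ∧
      Tendsto (fun n => (Nat.card {φ : Γ →* G n // Function.Surjective φ} : ℝ) /
        Nat.card (Γ →* G n)) atTop (𝓝 1) ∧
      ∃ γ : Γ, γ ≠ 1 ∧ ∀ (n : ℕ) (φ : Γ →* G n), φ γ = 1 := by
  classical
  choose p hgt hp hm using fun n : ℕ =>
    Nat.forall_exists_prime_gt_and_modEq (n + 5) (q := 8) (a := 3) (by norm_num) (by norm_num)
  have hf : ∀ n, Fact (p n).Prime := fun n => ⟨hp n⟩
  have h8 : ∀ n, p n % 8 = 3 := hm
  have h5 : ∀ n, 5 ≤ p n := fun n => by have := hgt n; omega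
  have hn : ∀ n, ¬IsSquare (-1 : ZMod (p n)) := fun n => by
    rw [ZMod.exists_sq_eq_neg_one_iff]; have := h8 n; omega
  have h2 : ∀ n, ¬IsSquare (2 : ZMod (p n)) := fun n => by
    rw [ZMod.exists_sq_eq_two_iff (by have := h5 n; omega)]; have := h8 n; omega
  have hs : ∀ n, IsSimpleGroup PSL(2, ZMod (p n)) := fun n =>
    Matrix.ProjectiveSpecialLinearGroup.rank_two_simple (by
      rw [Nat.card_zmod]; have := h5 n; omega)
  refine ⟨LL.range, ⟨LL_fg, LL_disc, orbH, orbP⟩, fun n => PSL(2, ZMod (p n)),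
    inferInstance, inferInstance, fun n => ⟨hs n, fun hc => ?_⟩, ?_, ?_,
    ⟨pr gx, gg_mem none⟩ ^ 2, fun h => ?_, fun n φ => ?_⟩
  · let u : SL(2, ZMod (p n)) := ⟨!![1, 1; 0, 1], by simp [Matrix.det_fin_two_of]⟩
    let w : SL(2, ZMod (p n)) := ⟨!![1, 0; 1, 1], by simp [Matrix.det_fin_two_of]⟩
    have h1 : pr ((w * u)⁻¹ * (u * w)) = 1 := by
      rw [map_mul, map_inv, map_mul, map_mul, hc.is_comm.comm (pr u), inv_mul_cancel]
    have h3 : vl (u * w) 0 1 = 1 ∧ vl (w * u) 0 1 = 1 ∧ vl (u * w) 0 0 = 2 ∧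
        vl (w * u) 0 0 = 1 := by
      simp [vl, u, w, Matrix.mul_apply, Fin.sum_univ_two]; norm_num
    obtain ⟨a1, a2, a3, a4⟩ := h3
    rcases pr_one.1 h1 with h | h
    · rw [← inv_mul_eq_one.1 h, a4] at a3
      exact one_ne_zero (α := ZMod (p n)) (by linear_combination -a3)
    · rw [inv_mul_eq_iff_eq_mul.1 h, mul_neg, mul_one, vl_neg, Matrix.neg_apply, a2] at a1
      exact hn n ⟨1, by linear_combination a1⟩
  · refine tendsto_atTop_mono (fun n => ?_) tendsto_id
    have a := (PSL_card (F := ZMod (p n))).1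
    have b := SL_ge (F := ZMod (p n))
    rw [Nat.card_zmod] at b
    have c := hgt n
    obtain ⟨m, hm⟩ : ∃ m, p n = m + 1 := ⟨p n - 1, by omega⟩
    rw [hm] at c
    have d : p n - 1 = m := by omega
    rw [d] at b
    have : 2 ≤ p n ^ 2 := by nlinarith [h5 n]
    change n ≤ _
    nlinarith
  · have key : ∀ n, |(Nat.card {φ : LL.range →* PSL(2, ZMod (p n)) // Function.Surjective φ} : ℝ) /
        Nat.card (LL.range →* PSL(2, ZMod (p n))) - 1| ≤ 300000 * (1 / ((n : ℝ) + 1)) := by
      intro n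
      obtain ⟨a, b, T, e, he⟩ := hom_equiv PSL(2, ZMod (p n))
      have hfg : Group.FG LL.range := (Group.fg_iff_subgroup_fg _).2 LL_fg
      have hfin : Finite (LL.range →* PSL(2, ZMod (p n))) := by
        obtain ⟨S, hS, hS'⟩ := Group.fg_iff.1 hfg
        have := hS'.to_subtype
        exact Finite.of_injective (fun (φ : LL.range →* PSL(2, ZMod (p n))) (x : S) => φ x)
          fun φ ψ h => MonoidHom.eq_of_eqOn_dense hS fun x hx => congrFun h ⟨x, hx⟩
      have hT : Finite T := by
        have := Finite.of_equiv _ e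
        exact Finite.of_injective (fun t : T => ((t, 1) : T × (PSL(2, ZMod (p n)) ×
          PSL(2, ZMod (p n))))) fun x y h => congrArg Prod.fst h
      have c1 := Nat.card_congr e
      rw [Nat.card_prod, Nat.card_prod] at c1
      have c2 := Nat.card_le_card_of_injective
        (fun φ : {φ : LL.range →* PSL(2, ZMod (p n)) // ¬Function.Surjective φ} =>
          (((e φ.1).1, ⟨(e φ.1).2, fun h => φ.2 (by
            rw [← MonoidHom.range_eq_top, eq_top_iff, ← h, he, Subgroup.closure_le]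
            rintro _ (rfl | rfl)
            · exact ⟨a, rfl⟩
            · exact ⟨b, rfl⟩)⟩) : T × {x : PSL(2, ZMod (p n)) × PSL(2, ZMod (p n)) //
              Subgroup.closure {x.1, x.2} ≠ ⊤}))
        (fun x y h => Subtype.ext (e.injective (Prod.ext (Prod.ext_iff.1 h).1
          (congrArg Subtype.val (Prod.ext_iff.1 h).2))))
      rw [Nat.card_prod] at c2
      have c3 := gen (h5 n) (hn n)
      have c4 := Nat.card_congr (Equiv.sumCompl fun φ : LL.range →* PSL(2, ZMod (p n)) =>
        Function.Surjective φ)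
      rw [Nat.card_sum] at c4
      have c5 : 0 < Nat.card (LL.range →* PSL(2, ZMod (p n))) := Nat.card_pos
      have c6 : n + 1 ≤ p n - 1 := by have := hgt n; omega
      generalize Nat.card {φ : LL.range →* PSL(2, ZMod (p n)) // Function.Surjective φ} = A at *
      generalize Nat.card {φ : LL.range →* PSL(2, ZMod (p n)) // ¬Function.Surjective φ} = B at *
      generalize Nat.card (LL.range →* PSL(2, ZMod (p n))) = N at *
      generalize Nat.card {x : PSL(2, ZMod (p n)) × PSL(2, ZMod (p n)) //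
        Subgroup.closure {x.1, x.2} ≠ ⊤} = D at *
      generalize Nat.card PSL(2, ZMod (p n)) = g at *
      have c7 : (n + 1) * B ≤ 300000 * N := by
        calc (n + 1) * B ≤ (p n - 1) * (Nat.card T * D) := Nat.mul_le_mul c6 c2
          _ = Nat.card T * ((p n - 1) * D) := by ring
          _ ≤ Nat.card T * (300000 * g ^ 2) := Nat.mul_le_mul_left _ c3
          _ = 300000 * N := by rw [c1]; ring
      have c8 : (0 : ℝ) < N := by exact_mod_cast c5
      have c9 : ((n : ℝ) + 1) * B ≤ 300000 * N := by exact_mod_cast c7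
      have c10 : (A : ℝ) / N - 1 = -(B / N) := by
        have : (A : ℝ) + B = N := by exact_mod_cast c4
        field_simp; linarith
      rw [c10, abs_neg, abs_of_nonneg (by positivity), mul_one_div,
        div_le_div_iff₀ c8 (by positivity)]
      linarith
    rw [← tendsto_sub_nhds_zero_iff]
    refine squeeze_zero_norm key ?_
    simpa using (tendsto_one_div_add_atTop_nhds_zero_nat (𝕜 := ℝ)).const_mul 300000
  · have h1 : pr (gx ^ 2) = 1 := by rw [map_pow]; exact congrArg Subtype.val h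
    have h3 : vl (gx ^ 2) 0 1 = 0 := by rcases pr_one.1 h1 with h | h <;> simp [h]
    simp [gx2] at h3
  · rw [map_pow]
    refine ord4 (h2 n) _ ?_
    rw [← map_pow, ← φ.map_one]
    congr 1
    refine Subtype.ext ?_
    change pr gx ^ 4 = 1
    rw [← map_pow, gx4, pr_one]; simp

end Pool.Agent.Results.MP_b9a4b9_al.No
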